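import Pool.Agent.V11277.MF.Gauss

/-!
# A Cantor set of numbers with the exact irrationality exponent `τ`
-/

set_option autoImplicit false

namespace Pool.Agent.V11277.MF

open Finset Filter
open Real (ofDigits ofDigitsTerm)

/-- The ends of the blocks of digits. -/
noncomputable def nn (τ : ℝ) : ℕ → ℕ
  | 0 => 1
  | k + 1 => ⌈τ * nn τ k⌉₊ + nn τ k + 2

/-- The ends of the blocks of zeros. -/
noncomputable def uu (τ : ℝ) (k : ℕ) : ℕ := ⌈τ * nn τ k⌉₊

lemma nn_succ (τ : ℝ) (k : ℕ) : nn τ (k + 1) = uu τ k + nn τ k + 2 := rfl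

/-- The positions of the free digits. -/
def Free (τ : ℝ) (i : ℕ) : Prop := ∃ k, uu τ k < i ∧ i + 1 < nn τ (k + 1)

/-- The positions of the zeros. -/
def Zer (τ : ℝ) (i : ℕ) : Prop := ∃ k, nn τ k ≤ i ∧ i < uu τ k

open Classical in
/-- The digits. -/
noncomputable def DD (τ : ℝ) (b : ℕ → Fin 2) (i : ℕ) : Fin 3 :=
  if Free τ i then (if b (Nat.count (Free τ) i) = 0 then 0 else 2) else if Zer τ i then 0 else 2

lemma nn_pos (τ : ℝ) (k : ℕ) : 1 ≤ nn τ k := by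
  cases k with
  | zero => exact le_rfl
  | succ k => rw [nn_succ]; omega

lemma nn_strictMono (τ : ℝ) : StrictMono (nn τ) := by
  apply strictMono_nat_of_lt_succ
  intro k
  rw [nn_succ]
  omega

lemma le_nn (τ : ℝ) (k : ℕ) : k + 1 ≤ nn τ k := by
  induction k with
  | zero => exact le_rfl
  | succ k ih =>
    rw [nn_succ]
    omega

lemma mul_le_uu (τ : ℝ) (k : ℕ) : τ * nn τ k ≤ uu τ k := Nat.le_ceil _

lemma uu_le {τ : ℝ} (hτ : 3 ≤ τ) (k : ℕ) : (uu τ k : ℝ) ≤ τ * nn τ k + 1 :=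
  (Nat.ceil_lt_add_one (by positivity)).le

lemma three_mul_le {τ : ℝ} (hτ : 3 ≤ τ) (k : ℕ) : 3 * nn τ k ≤ uu τ k := by
  have h1 := mul_le_uu τ k
  have h2 : (0 : ℝ) ≤ nn τ k := Nat.cast_nonneg _
  have h3 : ((3 * nn τ k : ℕ) : ℝ) ≤ uu τ k := by
    push_cast
    nlinarith
  exact_mod_cast h3

lemma block_unique {τ : ℝ} {i k l : ℕ} (h1 : nn τ k ≤ i) (h2 : i < nn τ (k + 1))
    (h3 : nn τ l ≤ i) (h4 : i < nn τ (l + 1)) : k = l := by
  by_contra hne
  rcases Nat.lt_or_gt_of_ne hne with h | h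
  · have := (nn_strictMono τ).monotone (show k + 1 ≤ l from h)
    omega
  · have := (nn_strictMono τ).monotone (show l + 1 ≤ k from h)
    omega

lemma nn_lt_uu {τ : ℝ} (hτ : 3 ≤ τ) (k : ℕ) : nn τ k < uu τ k := by
  have h1 := three_mul_le hτ k
  have h2 := nn_pos τ k
  omega

lemma free_iff {τ : ℝ} (hτ : 3 ≤ τ) {i k : ℕ} (h1 : nn τ k ≤ i) (h2 : i < nn τ (k + 1)) :
    Free τ i ↔ uu τ k < i ∧ i + 1 < nn τ (k + 1) := by
  constructor
  · rintro ⟨l, hl1, hl2⟩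
    have h3 := nn_lt_uu hτ l
    obtain rfl := block_unique h1 h2 (l := l) (by omega) (by omega)
    exact ⟨hl1, hl2⟩
  · intro h
    exact ⟨k, h⟩

lemma zer_iff {τ : ℝ} {i k : ℕ} (h1 : nn τ k ≤ i) (h2 : i < nn τ (k + 1)) :
    Zer τ i ↔ i < uu τ k := by
  constructor
  · rintro ⟨l, hl1, hl2⟩
    have h3 := nn_succ τ l
    obtain rfl := block_unique h1 h2 (l := l) (by omega) (by omega)
    exact hl2
  · intro h
    exact ⟨k, h1, h⟩

lemma DD_zero {τ : ℝ} (hτ : 3 ≤ τ) (b : ℕ → Fin 2) {i k : ℕ} (h1 : nn τ k ≤ i)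
    (h2 : i < uu τ k) : DD τ b i = 0 := by
  have h3 := nn_succ τ k
  have h4 : i < nn τ (k + 1) := by omega
  unfold DD
  rw [if_neg, if_pos]
  · exact (zer_iff h1 h4).2 h2
  · rw [free_iff hτ h1 h4]
    omega

lemma DD_uu {τ : ℝ} (hτ : 3 ≤ τ) (b : ℕ → Fin 2) (k : ℕ) : DD τ b (uu τ k) = 2 := by
  have h3 := nn_succ τ k
  have h5 := nn_lt_uu hτ k
  have h4 : uu τ k < nn τ (k + 1) := by omega
  unfold DD
  rw [if_neg, if_neg]
  · rw [zer_iff h5.le h4]
    omega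
  · rw [free_iff hτ h5.le h4]
    omega

lemma DD_last {τ : ℝ} (hτ : 3 ≤ τ) (b : ℕ → Fin 2) (k : ℕ) : DD τ b (nn τ k - 1) = 2 := by
  cases k with
  | zero =>
    have h0 : nn τ 0 - 1 = 0 := rfl
    rw [h0]
    unfold DD
    rw [if_neg, if_neg]
    · rintro ⟨k, hk, _⟩
      have := nn_pos τ k
      omega
    · rintro ⟨k, hk, _⟩
      omega
  | succ k =>
    have h3 := nn_succ τ k
    have h5 := nn_lt_uu hτ k
    have h6 : nn τ k ≤ nn τ (k + 1) - 1 := by omega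
    have h4 : nn τ (k + 1) - 1 < nn τ (k + 1) := by omega
    unfold DD
    rw [if_neg, if_neg]
    · rw [zer_iff h6 h4]
      omega
    · rw [free_iff hτ h6 h4]
      omega

/-- The numerators of the truncations. -/
def num (a : ℕ → Fin 3) : ℕ → ℤ
  | 0 => 0
  | n + 1 => 3 * num a n + (a n : ℕ)

lemma sum_eq_num (a : ℕ → Fin 3) (n : ℕ) :
    ∑ i ∈ range n, ofDigitsTerm a i = (num a n : ℝ) / 3 ^ n := by
  induction n with
  | zero => simp [num]
  | succ n ih =>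
    rw [sum_range_succ, ih, ofDigitsTerm, num]
    push_cast
    rw [pow_succ]
    field_simp

lemma ofDigits_trunc (a : ℕ → Fin 3) (n : ℕ) :
    ofDigits a = (num a n : ℝ) / 3 ^ n + ((3 : ℝ) ^ n)⁻¹ * ofDigits (fun i => a (i + n)) := by
  have h := Real.ofDigits_eq_sum_add_ofDigits a n
  rw [sum_eq_num] at h
  push_cast at h
  exact h

lemma num_coprime {a : ℕ → Fin 3} {n : ℕ} (hn : 1 ≤ n) (ha : a (n - 1) = 2) (m : ℕ) :
    IsCoprime (num a n) ((3 ^ m : ℕ) : ℤ) := by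
  obtain ⟨n, rfl⟩ : ∃ k, n = k + 1 := ⟨n - 1, by omega⟩
  rw [Nat.add_sub_cancel] at ha
  push_cast
  apply IsCoprime.pow_right
  rw [num, ha]
  refine ⟨-1, num a n + 1, ?_⟩
  have : (((2 : Fin 3) : ℕ) : ℤ) = 2 := rfl
  rw [this]
  ring

lemma num_zero {a : ℕ → Fin 3} {n m : ℕ} (hnm : n ≤ m) (ha : ∀ i, n ≤ i → i < m → a i = 0) :
    (num a m : ℝ) / 3 ^ m = (num a n : ℝ) / 3 ^ n := by
  induction m, hnm using Nat.le_induction with
  | base => rfl
  | succ m hm ih =>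
    rw [← ih fun i h1 h2 => ha i h1 (by omega), num, ha m hm (by omega)]
    push_cast
    rw [pow_succ]
    field_simp
    simp

lemma ofDigits_first {a : ℕ → Fin 3} (ha : a 0 = 2) : 2 / 3 ≤ ofDigits a := by
  have h := ofDigits_trunc a 1
  have h1 := Real.ofDigits_nonneg (fun i => a (i + 1))
  rw [num, num, ha] at h
  have : (((2 : Fin 3) : ℕ) : ℤ) = 2 := rfl
  rw [this] at h
  push_cast at h
  rw [h]
  have : 0 ≤ ((3 : ℝ) ^ 1)⁻¹ * ofDigits (fun i => a (i + 1)) := by positivity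
  linarith

lemma ofDigits_first' {a : ℕ → Fin 3} (ha : a 0 = 0) : ofDigits a ≤ 1 / 3 := by
  have h := ofDigits_trunc a 1
  have h1 := Real.ofDigits_le_one (fun i => a (i + 1))
  rw [num, num, ha] at h
  push_cast at h
  rw [h]
  simp
  linarith

/-- The points of the Cantor set. -/
noncomputable def xx (τ : ℝ) (b : ℕ → Fin 2) : ℝ := ofDigits (DD τ b)

lemma xx_approx {τ : ℝ} (hτ : 3 ≤ τ) (b : ℕ → Fin 2) (k : ℕ) :
    xx τ b - (num (DD τ b) (nn τ k) : ℝ) / 3 ^ nn τ k ≤ ((3 : ℝ) ^ uu τ k)⁻¹ ∧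
    2 / 3 * ((3 : ℝ) ^ uu τ k)⁻¹ ≤ xx τ b - (num (DD τ b) (nn τ k) : ℝ) / 3 ^ nn τ k := by
  have h1 := ofDigits_trunc (DD τ b) (uu τ k)
  rw [num_zero (nn_lt_uu hτ k).le fun i hi1 hi2 => DD_zero hτ b hi1 hi2] at h1
  unfold xx
  rw [h1, add_sub_cancel_left]
  have h2 := Real.ofDigits_le_one (fun i => DD τ b (i + uu τ k))
  have h3 : 2 / 3 ≤ ofDigits (fun i => DD τ b (i + uu τ k)) :=
    ofDigits_first (by simp only [zero_add]; exact DD_uu hτ b k)
  have h4 : (0 : ℝ) < ((3 : ℝ) ^ uu τ k)⁻¹ := by positivity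
  constructor <;> nlinarith

/-- Good approximations. -/
theorem xx_good {τ : ℝ} (hτ : 3 ≤ τ) (b : ℕ → Fin 2) (B : ℕ) : ∃ q : ℕ, B ≤ q ∧ Odd q ∧
    ∃ a : ℤ, IsCoprime a (q : ℤ) ∧ |xx τ b - a / q| ≤ ((q : ℝ) ^ τ)⁻¹ := by
  refine ⟨3 ^ nn τ B, ?_, (by decide : Odd 3).pow, num (DD τ b) (nn τ B),
    num_coprime (nn_pos τ B) (DD_last hτ b B) _, ?_⟩
  · have h1 := le_nn τ B
    have h2 := Nat.lt_pow_self (show 1 < 3 by norm_num) (n := nn τ B)
    omega
  · obtain ⟨h1, h2⟩ := xx_approx hτ b B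
    have h3 : (0 : ℝ) < ((3 : ℝ) ^ uu τ B)⁻¹ := by positivity
    push_cast
    rw [abs_of_nonneg (by linarith)]
    refine h1.trans ?_
    apply inv_anti₀ (by positivity)
    rw [← Real.rpow_natCast 3 (nn τ B), ← Real.rpow_mul (by norm_num), ← Real.rpow_natCast]
    apply Real.rpow_le_rpow_of_exponent_le (by norm_num)
    have := mul_le_uu τ B
    linarith

/-- No better approximations. -/
theorem xx_bad {τ : ℝ} (hτ : 3 ≤ τ) (b : ℕ → Fin 2) (r : ℚ) :
    (2 ^ (-τ) / 27) * ((r.den : ℝ) ^ τ)⁻¹ ≤ |xx τ b - r| := by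
  obtain ⟨q, hq⟩ : ∃ q : ℕ, q = r.den := ⟨_, rfl⟩
  have hq1 : 1 ≤ q := by rw [hq]; exact r.pos
  have hq0 : (0 : ℝ) < q := by exact_mod_cast hq1
  have hq1' : (1 : ℝ) ≤ q := by exact_mod_cast hq1
  have hτ0 : 0 < τ := by linarith
  rw [← hq]
  have h2τ : (2 : ℝ) ^ (-τ) ≤ 1 := Real.rpow_le_one_of_one_le_of_nonpos (by norm_num) (by linarith)
  have h2τ0 : (0 : ℝ) < 2 ^ (-τ) := by positivity
  have hqτ : (0 : ℝ) < ((q : ℝ) ^ τ)⁻¹ := by positivity
  have hrq : (r : ℝ) = (r.num : ℝ) / q := by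
    rw [hq]
    exact Rat.cast_def r
  by_cases hcase : ∃ k, (r : ℝ) = (num (DD τ b) (nn τ k) : ℝ) / 3 ^ nn τ k
  · obtain ⟨k, hk⟩ := hcase
    have h1 : q = 3 ^ nn τ k := by
      have h2 : (r : ℚ) = (num (DD τ b) (nn τ k) : ℚ) / ((3 ^ nn τ k : ℕ) : ℚ) := by
        have : ((r : ℚ) : ℝ) = (((num (DD τ b) (nn τ k) : ℚ) / ((3 ^ nn τ k : ℕ) : ℚ) : ℚ) : ℝ) := by
          rw [hk]
          push_cast
          rfl
        exact_mod_cast this
      have h3 : IsCoprime (num (DD τ b) (nn τ k)) ((3 ^ nn τ k : ℕ) : ℤ) :=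
        num_coprime (nn_pos τ k) (DD_last hτ b k) _
      have h4 := Rat.den_div_eq_of_coprime (a := num (DD τ b) (nn τ k))
        (b := ((3 ^ nn τ k : ℕ) : ℤ)) (by positivity) (Int.isCoprime_iff_nat_coprime.1 h3)
      rw [hq]
      have h5 : (((r.den : ℕ) : ℤ)) = ((3 ^ nn τ k : ℕ) : ℤ) := by
        rw [← h4, h2]
        push_cast
        rfl
      exact_mod_cast h5
    obtain ⟨_, h2⟩ := xx_approx hτ b k
    have h3 : (0 : ℝ) < ((3 : ℝ) ^ uu τ k)⁻¹ := by positivity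
    rw [hk, abs_of_nonneg (by linarith)]
    refine le_trans ?_ h2
    have h4 : ((q : ℝ) ^ τ)⁻¹ ≤ 3 * ((3 : ℝ) ^ uu τ k)⁻¹ := by
      have h5 : (3 : ℝ) ^ uu τ k ≤ 3 * (q : ℝ) ^ τ := by
        rw [h1]
        push_cast
        rw [← Real.rpow_natCast 3 (nn τ k), ← Real.rpow_mul (by norm_num), ← Real.rpow_natCast]
        have h6 : (3 : ℝ) * 3 ^ ((nn τ k : ℝ) * τ) = 3 ^ ((nn τ k : ℝ) * τ + 1) := by
          rw [Real.rpow_add_one (by norm_num), mul_comm]
        rw [h6]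
        apply Real.rpow_le_rpow_of_exponent_le (by norm_num)
        have := uu_le hτ k
        linarith
      rw [inv_le_iff_one_le_mul₀ (by positivity), mul_assoc, mul_comm, mul_assoc,
        ← div_eq_inv_mul, one_le_div (by positivity)] 
      linarith
    have h5 : 2 ^ (-τ) / 27 * ((q : ℝ) ^ τ)⁻¹ ≤ 1 / 27 * ((q : ℝ) ^ τ)⁻¹ := by
      apply mul_le_mul_of_nonneg_right _ hqτ.le
      linarith
    linarith
  · push Not at hcase
    -- the first block whose zeros are long compared with `q`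
    have hex : ∃ k, 2 * q ≤ 3 ^ (uu τ k - nn τ k) := by
      refine ⟨q, ?_⟩
      have h1 := three_mul_le hτ q
      have h2 := le_nn τ q
      have h3 : 2 * q ≤ uu τ q - nn τ q := by omega
      exact h3.trans (Nat.lt_pow_self (by norm_num)).le
    classical
    obtain ⟨k, hk⟩ : ∃ k, k = Nat.find hex := ⟨_, rfl⟩
    have hk1 : 2 * q ≤ 3 ^ (uu τ k - nn τ k) := by rw [hk]; exact Nat.find_spec hex
    have hk2 : ∀ j < k, 3 ^ (uu τ j - nn τ j) < 2 * q := by
      intro j hj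
      rw [hk] at hj
      exact not_le.1 (Nat.find_min hex hj)
    -- the distance to the rational number
    have h1 : 1 / (2 * q * 3 ^ nn τ k) ≤ |xx τ b - r| := by
      obtain ⟨h2, h3⟩ := xx_approx hτ b k
      have h4 : (0 : ℝ) < ((3 : ℝ) ^ uu τ k)⁻¹ := by positivity
      have h5 : |xx τ b - (num (DD τ b) (nn τ k) : ℝ) / 3 ^ nn τ k| ≤ 1 / (2 * q * 3 ^ nn τ k) := by
        rw [abs_of_nonneg (by linarith)]
        refine h2.trans ?_
        rw [inv_eq_one_div]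
        apply one_div_le_one_div_of_le (by positivity)
        have h6 : (2 * (q : ℝ)) ≤ 3 ^ (uu τ k - nn τ k) := by exact_mod_cast hk1
        calc 2 * (q : ℝ) * 3 ^ nn τ k ≤ 3 ^ (uu τ k - nn τ k) * 3 ^ nn τ k :=
              mul_le_mul_of_nonneg_right h6 (by positivity)
          _ = 3 ^ uu τ k := by
              rw [← pow_add, Nat.sub_add_cancel (nn_lt_uu hτ k).le]
      have h6 : 1 / (q * 3 ^ nn τ k) ≤ |(r : ℝ) - (num (DD τ b) (nn τ k) : ℝ) / 3 ^ nn τ k| := by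
        have h7 : (r : ℝ) - (num (DD τ b) (nn τ k) : ℝ) / 3 ^ nn τ k =
            ((r.num * 3 ^ nn τ k - num (DD τ b) (nn τ k) * q : ℤ) : ℝ) / (q * 3 ^ nn τ k) := by
          rw [hrq]
          push_cast
          field_simp
        rw [h7, abs_div, abs_of_pos (by positivity : (0 : ℝ) < q * 3 ^ nn τ k)]
        apply div_le_div_of_nonneg_right _ (by positivity)
        have h8 : (r.num * 3 ^ nn τ k - num (DD τ b) (nn τ k) * q : ℤ) ≠ 0 := by
          intro h9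
          apply hcase k
          have h10 : (r : ℝ) - (num (DD τ b) (nn τ k) : ℝ) / 3 ^ nn τ k = 0 := by
            rw [h7, h9]
            simp
          linarith
        have h9 := Int.one_le_abs h8
        exact_mod_cast h9
      have h7 : 1 / ((q : ℝ) * 3 ^ nn τ k) = 1 / (2 * q * 3 ^ nn τ k) + 1 / (2 * q * 3 ^ nn τ k) := by
        field_simp
        ring
      have h8 := abs_sub_abs_le_abs_sub ((r : ℝ) - (num (DD τ b) (nn τ k) : ℝ) / 3 ^ nn τ k)
        (xx τ b - (num (DD τ b) (nn τ k) : ℝ) / 3 ^ nn τ k)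
      have h9 : (r : ℝ) - (num (DD τ b) (nn τ k) : ℝ) / 3 ^ nn τ k -
          (xx τ b - (num (DD τ b) (nn τ k) : ℝ) / 3 ^ nn τ k) = r - xx τ b := by ring
      rw [h9, abs_sub_comm (r : ℝ) (xx τ b)] at h8
      linarith
    refine le_trans ?_ h1
    -- the bound of `3 ^ nn τ k`
    have h2 : (3 : ℝ) ^ nn τ k ≤ 27 * (2 * q) ^ (τ - 1) := by
      have h2q : (1 : ℝ) ≤ 2 * q := by linarith
      rcases Nat.eq_zero_or_pos k with h3 | h3
      · rw [h3]
        have h4 : nn τ 0 = 1 := rfl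
        rw [h4, pow_one]
        have h5 : (1 : ℝ) ≤ (2 * q) ^ (τ - 1) := Real.one_le_rpow h2q (by linarith)
        linarith
      · obtain ⟨j, rfl⟩ : ∃ j, k = j + 1 := ⟨k - 1, by omega⟩
        have h4 := hk2 j (by omega)
        have h5 : (3 : ℝ) ^ ((τ - 1) * nn τ j) ≤ 2 * q := by
          have h6 : ((3 : ℝ) ^ (uu τ j - nn τ j)) ≤ 2 * q := by exact_mod_cast h4.le
          refine le_trans ?_ h6
          rw [← Real.rpow_natCast 3 (uu τ j - nn τ j), Nat.cast_sub (nn_lt_uu hτ j).le]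
          apply Real.rpow_le_rpow_of_exponent_le (by norm_num)
          have := mul_le_uu τ j
          linarith
        have h6 : (3 : ℝ) ^ ((τ - 1) * nn τ j * (τ - 1)) ≤ (2 * q) ^ (τ - 1) := by
          rw [Real.rpow_mul (by norm_num)]
          exact Real.rpow_le_rpow (by positivity) h5 (by linarith)
        have h7 : (3 : ℝ) ^ nn τ (j + 1) ≤ 27 * (3 : ℝ) ^ ((τ - 1) * nn τ j * (τ - 1)) := by
          have h8 : (27 : ℝ) * (3 : ℝ) ^ ((τ - 1) * nn τ j * (τ - 1)) =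
              3 ^ ((τ - 1) * nn τ j * (τ - 1) + 3) := by
            rw [Real.rpow_add (by norm_num)]
            norm_num
            ring
          rw [h8, ← Real.rpow_natCast]
          apply Real.rpow_le_rpow_of_exponent_le (by norm_num)
          rw [nn_succ]
          push_cast
          have h9 := uu_le hτ j
          have h10 : (0 : ℝ) ≤ nn τ j := Nat.cast_nonneg _
          have h11 : (τ + 1) * (nn τ j : ℝ) ≤ (τ - 1) * nn τ j * (τ - 1) := by
            have h12 : 0 ≤ τ * (τ - 3) := mul_nonneg hτ0.le (by linarith)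
            nlinarith
          linarith
        linarith
    have h3 : 2 ^ (-τ) / 27 * ((q : ℝ) ^ τ)⁻¹ = 1 / (27 * (2 * q) ^ τ) := by
      rw [Real.mul_rpow (by norm_num) hq0.le, Real.rpow_neg (by norm_num)]
      field_simp
    rw [h3]
    apply one_div_le_one_div_of_le (by positivity)
    have h4 : (2 * (q : ℝ)) ^ τ = 2 * q * (2 * q) ^ (τ - 1) := by
      rw [mul_comm (2 * (q : ℝ)) _, ← Real.rpow_add_one (by positivity)]
      congr 1
      ring
    rw [h4]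
    have h5 : 2 * (q : ℝ) * 3 ^ nn τ k ≤ 2 * q * (27 * (2 * q) ^ (τ - 1)) :=
      mul_le_mul_of_nonneg_left h2 (by positivity)
    linarith

end Pool.Agent.V11277.MF
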