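import Pool.Agent.V11277.MF.Digits

/-!
# The Hausdorff dimension of the Cantor set is positive
-/

set_option autoImplicit false

namespace Pool.Agent.V11277.MF

open Finset Filter
open Real (ofDigits ofDigitsTerm)
open scoped NNReal ENNReal

/-- A set which is mapped onto an interval by a Hölder continuous function has positive
dimension. -/
theorem dimH_range_pos {ι : Type*} [Nonempty ι] (x y : ι → ℝ) (K r : ℝ≥0) (hr : 0 < r)
    (h : ∀ b b', |y b - y b'| ≤ K * |x b - x b'| ^ (r : ℝ))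
    (hy : Set.Ico (0 : ℝ) 1 ⊆ Set.range y) : 0 < dimH (Set.range x) := by
  classical
  have hinv : ∀ b, x (Function.invFun x (x b)) = x b := fun b =>
    Function.invFun_eq ⟨b, rfl⟩
  have h1 : HolderOnWith K r (fun t => y (Function.invFun x t)) (Set.range x) := by
    rintro _ ⟨b, rfl⟩ _ ⟨b', rfl⟩
    have h2 := h (Function.invFun x (x b)) (Function.invFun x (x b'))
    rw [hinv, hinv] at h2
    simp only [edist_dist]
    rw [Real.dist_eq, Real.dist_eq]
    calc ENNReal.ofReal |y (Function.invFun x (x b)) - y (Function.invFun x (x b'))|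
        ≤ ENNReal.ofReal (K * |x b - x b'| ^ (r : ℝ)) := ENNReal.ofReal_le_ofReal h2
      _ = K * ENNReal.ofReal |x b - x b'| ^ (r : ℝ) := by
          rw [ENNReal.ofReal_mul (NNReal.coe_nonneg K),
            ENNReal.ofReal_rpow_of_nonneg (abs_nonneg _) (NNReal.coe_nonneg r),
            ENNReal.ofReal_coe_nnreal]
  have h2 := h1.dimH_image_le hr
  have h3 : Set.Ico (0 : ℝ) 1 ⊆ (fun t => y (Function.invFun x t)) '' Set.range x := by
    intro v hv
    obtain ⟨b, rfl⟩ := hy hv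
    refine ⟨x b, ⟨b, rfl⟩, ?_⟩
    have h4 := h (Function.invFun x (x b)) b
    rw [hinv, sub_self, abs_zero, Real.zero_rpow (by exact_mod_cast hr.ne'), mul_zero] at h4
    have h5 := abs_nonpos_iff.1 h4
    simp only
    linarith
  have h4 : dimH (Set.Ico (0 : ℝ) 1) = 1 := by
    rw [Real.dimH_of_nonempty_interior]
    · simp
    · rw [interior_Ico]
      exact ⟨1 / 2, by norm_num, by norm_num⟩
  have h5 : (1 : ℝ≥0∞) ≤ dimH (Set.range x) / r := by
    rw [← h4]
    exact (dimH_mono h3).trans h2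
  rcases eq_or_ne (dimH (Set.range x)) 0 with h6 | h6
  · rw [h6, ENNReal.zero_div] at h5
    exact absurd h5 (by norm_num)
  · exact pos_iff_ne_zero.2 h6

lemma uu_strictMono {τ : ℝ} (hτ : 3 ≤ τ) : StrictMono (uu τ) := by
  apply strictMono_nat_of_lt_succ
  intro k
  have h1 := nn_succ τ k
  have h2 := nn_lt_uu hτ (k + 1)
  omega

lemma free_infinite {τ : ℝ} (hτ : 3 ≤ τ) : (Set.ofPred (Free τ)).Infinite := by
  have h1 : Function.Injective (fun k => uu τ k + 1) := by
    intro k l hkl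
    simp only [Nat.add_right_cancel_iff] at hkl
    exact (uu_strictMono hτ).injective hkl
  refine Set.infinite_of_injective_forall_mem h1 fun k => ?_
  refine ⟨k, by omega, ?_⟩
  have := nn_pos τ k
  rw [nn_succ]
  omega

open Classical in
lemma le_count (τ : ℝ) (k : ℕ) : nn τ k ≤ Nat.count (Free τ) (nn τ (k + 1)) := by
  rw [Nat.count_eq_card_filter_range]
  have h1 : Ioo (uu τ k) (nn τ (k + 1) - 1) ⊆ {i ∈ range (nn τ (k + 1)) | Free τ i} := by
    intro i hi
    rw [mem_Ioo] at hi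
    rw [mem_filter, mem_range]
    exact ⟨by omega, k, by omega, by omega⟩
  have h2 := card_le_card h1
  rw [Nat.card_Ioo] at h2
  refine le_trans ?_ h2
  rw [nn_succ]
  omega

lemma nn_growth {τ : ℝ} (hτ : 3 ≤ τ) (k : ℕ) : (nn τ (k + 1) : ℝ) ≤ (τ + 4) * nn τ k := by
  have h1 := uu_le hτ k
  have h2 : (1 : ℝ) ≤ nn τ k := by exact_mod_cast nn_pos τ k
  rw [nn_succ]
  push_cast
  nlinarith

open Classical in
/-- The number `J` free position grows linearly. -/
lemma nth_le {τ : ℝ} (hτ : 3 ≤ τ) (J : ℕ) :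
    Nat.nth (Free τ) J ≤ ⌈(τ + 4) ^ 2⌉₊ * (J + 1) := by
  have hex : ∃ k, J < nn τ k := ⟨J, le_nn τ J⟩
  obtain ⟨k, hk⟩ : ∃ k, k = Nat.find hex := ⟨_, rfl⟩
  have hk1 : J < nn τ k := by rw [hk]; exact Nat.find_spec hex
  have hk2 : ∀ j < k, nn τ j ≤ J := by
    intro j hj
    rw [hk] at hj
    exact not_lt.1 (Nat.find_min hex hj)
  have h1 : Nat.nth (Free τ) J < nn τ (k + 1) :=
    Nat.nth_lt_of_lt_count (hk1.trans_le (le_count τ k))
  have h2 : (nn τ (k + 1) : ℝ) ≤ (τ + 4) ^ 2 * ((J : ℝ) + 1) := by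
    have h3 := nn_growth hτ k
    have hJ : (0 : ℝ) ≤ J := Nat.cast_nonneg J
    rcases Nat.eq_zero_or_pos k with h4 | h4
    · subst h4
      have h5 : (nn τ 0 : ℝ) = 1 := by
        have : nn τ 0 = 1 := rfl
        rw [this]
        simp
      rw [h5] at h3
      have h6 : 0 ≤ (τ + 4) * ((τ + 3) + (τ + 4) * J) := by positivity
      nlinarith
    · obtain ⟨j, rfl⟩ : ∃ j, k = j + 1 := ⟨k - 1, by omega⟩
      have h5 := nn_growth hτ j
      have h6 : (nn τ j : ℝ) ≤ J := by exact_mod_cast hk2 j (by omega)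
      have h7 : (τ + 4) * (nn τ (j + 1) : ℝ) ≤ (τ + 4) * ((τ + 4) * J) :=
        mul_le_mul_of_nonneg_left (h5.trans (mul_le_mul_of_nonneg_left h6 (by linarith)))
          (by linarith)
      have h8 : 0 ≤ (τ + 4) ^ 2 := by positivity
      nlinarith
  have h3 : (Nat.nth (Free τ) J : ℝ) ≤ ((⌈(τ + 4) ^ 2⌉₊ * (J + 1) : ℕ) : ℝ) := by
    have h4 : (Nat.nth (Free τ) J : ℝ) ≤ nn τ (k + 1) := by exact_mod_cast h1.le
    have h5 : (τ + 4) ^ 2 ≤ (⌈(τ + 4) ^ 2⌉₊ : ℝ) := Nat.le_ceil _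
    push_cast
    refine h4.trans (h2.trans (mul_le_mul_of_nonneg_right h5 (by positivity)))
  exact_mod_cast h3

lemma num_congr {a a' : ℕ → Fin 3} {n : ℕ} (h : ∀ i < n, a i = a' i) : num a n = num a' n := by
  induction n with
  | zero => rfl
  | succ n ih =>
    rw [num, num, ih fun i hi => h i (by omega), h n (by omega)]

open Classical in
/-- Points with different digits are far apart. -/
lemma xx_sep {τ : ℝ} (hτ : 3 ≤ τ) {b b' : ℕ → Fin 2} {J : ℕ} (hJ : ∀ j < J, b j = b' j)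
    (h0 : b J = 0) (h1 : b' J ≠ 0) :
    ((3 : ℝ) ^ (Nat.nth (Free τ) J + 1))⁻¹ ≤ xx τ b' - xx τ b := by
  obtain ⟨I, hI⟩ : ∃ I, I = Nat.nth (Free τ) J := ⟨_, rfl⟩
  have hIF : Free τ I := by
    rw [hI]
    exact Nat.nth_mem_of_infinite (free_infinite hτ) J
  have hIc : Nat.count (Free τ) I = J := by
    rw [hI]
    exact Nat.count_nth_of_infinite (free_infinite hτ) J
  have h2 : ∀ i < I, DD τ b i = DD τ b' i := by
    intro i hi
    unfold DD
    by_cases hF : Free τ i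
    · have h3 : Nat.count (Free τ) i < J := by
        rw [← hIc]
        exact Nat.count_strict_mono hF hi
      rw [if_pos hF, if_pos hF, hJ _ h3]
    · rw [if_neg hF, if_neg hF]
  have h3 : DD τ b I = 0 := by
    unfold DD
    rw [if_pos hIF, hIc, if_pos h0]
  have h4 : DD τ b' I = 2 := by
    unfold DD
    rw [if_pos hIF, hIc, if_neg h1]
  unfold xx
  rw [ofDigits_trunc (DD τ b) I, ofDigits_trunc (DD τ b') I, num_congr h2, ← hI]
  have h5 : ofDigits (fun i => DD τ b (i + I)) ≤ 1 / 3 :=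
    ofDigits_first' (by simp only [zero_add]; exact h3)
  have h6 : 2 / 3 ≤ ofDigits (fun i => DD τ b' (i + I)) :=
    ofDigits_first (by simp only [zero_add]; exact h4)
  have h7 : (0 : ℝ) < ((3 : ℝ) ^ I)⁻¹ := by positivity
  rw [pow_succ, mul_inv]
  nlinarith

/-- The Hölder estimate. -/
theorem holder {τ : ℝ} (hτ : 3 ≤ τ) (b b' : ℕ → Fin 2) :
    |ofDigits b - ofDigits b'| ≤
      2 * |xx τ b - xx τ b'| ^ (Real.logb 3 2 / (⌈(τ + 4) ^ 2⌉₊ + 1)) := by
  classical
  obtain ⟨C, hC⟩ : ∃ C : ℕ, C = ⌈(τ + 4) ^ 2⌉₊ := ⟨_, rfl⟩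
  rw [← hC]
  by_cases hbb : b = b'
  · subst hbb
    rw [sub_self, abs_zero]
    positivity
  · have hex : ∃ j, b j ≠ b' j := Function.ne_iff.1 hbb
    obtain ⟨J, hJ⟩ : ∃ J, J = Nat.find hex := ⟨_, rfl⟩
    have hJ1 : b J ≠ b' J := by rw [hJ]; exact Nat.find_spec hex
    have hJ2 : ∀ j < J, b j = b' j := by
      intro j hj
      rw [hJ] at hj
      exact not_not.1 (Nat.find_min hex hj)
    have h1 : |ofDigits b - ofDigits b'| ≤ ((2 : ℝ) ^ J)⁻¹ := by
      have := Real.abs_ofDigits_sub_ofDigits_le hJ2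
      push_cast at this
      exact this
    have h2 : ((3 : ℝ) ^ (Nat.nth (Free τ) J + 1))⁻¹ ≤ |xx τ b - xx τ b'| := by
      by_cases h0 : b J = 0
      · have h3 : b' J ≠ 0 := fun h => hJ1 (by rw [h0, h])
        have h4 := xx_sep hτ hJ2 h0 h3
        rw [abs_sub_comm]
        exact h4.trans (le_abs_self _)
      · have h3 : b' J = 0 := by
          have h5 := (b J).isLt
          have h6 := (b' J).isLt
          have h7 : (b J : ℕ) ≠ b' J := fun h => hJ1 (Fin.ext h)
          have h8 : (b J : ℕ) ≠ 0 := fun h => h0 (Fin.ext h)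
          apply Fin.ext
          show (b' J : ℕ) = 0
          omega
        have h4 := xx_sep hτ (fun j hj => (hJ2 j hj).symm) h3 h0
        exact h4.trans (le_abs_self _)
    have h3 : Nat.nth (Free τ) J + 1 ≤ (C + 1) * (J + 1) := by
      have := nth_le hτ J
      rw [← hC] at this
      nlinarith
    have h4 : ((3 : ℝ) ^ ((C + 1) * (J + 1)))⁻¹ ≤ |xx τ b - xx τ b'| := by
      refine le_trans ?_ h2
      apply inv_anti₀ (by positivity)
      exact pow_le_pow_right₀ (by norm_num) h3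
    have hlog : 0 ≤ Real.logb 3 2 := Real.logb_nonneg (by norm_num) (by norm_num)
    have h5 : (((3 : ℝ) ^ ((C + 1) * (J + 1)))⁻¹) ^ (Real.logb 3 2 / ((C : ℝ) + 1)) =
        ((2 : ℝ) ^ (J + 1))⁻¹ := by
      rw [Real.inv_rpow (by positivity), ← Real.rpow_natCast, ← Real.rpow_mul (by norm_num)]
      congr 1
      have h6 : (((C + 1) * (J + 1) : ℕ) : ℝ) * (Real.logb 3 2 / ((C : ℝ) + 1)) =
          Real.logb 3 2 * ((J + 1 : ℕ) : ℝ) := by
        have : ((C : ℝ) + 1) ≠ 0 := by positivity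
        push_cast
        field_simp
      rw [h6, Real.rpow_mul (by norm_num), Real.rpow_logb (by norm_num) (by norm_num) (by norm_num),
        Real.rpow_natCast]
    have h6 : ((2 : ℝ) ^ (J + 1))⁻¹ ≤ |xx τ b - xx τ b'| ^ (Real.logb 3 2 / ((C : ℝ) + 1)) := by
      rw [← h5]
      exact Real.rpow_le_rpow (by positivity) h4 (by positivity)
    refine h1.trans ?_
    have h7 : ((2 : ℝ) ^ J)⁻¹ = 2 * ((2 : ℝ) ^ (J + 1))⁻¹ := by
      rw [pow_succ, mul_inv]
      ring
    rw [h7]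
    linarith

theorem dimH_range_xx {τ : ℝ} (hτ : 3 ≤ τ) : 0 < dimH (Set.range (xx τ)) := by
  have hlog : 0 < Real.logb 3 2 := Real.logb_pos (by norm_num) (by norm_num)
  refine dimH_range_pos (xx τ) ofDigits 2
    ⟨Real.logb 3 2 / (⌈(τ + 4) ^ 2⌉₊ + 1), by positivity⟩ ?_ ?_ ?_
  · rw [← NNReal.coe_pos]
    show 0 < Real.logb 3 2 / ((⌈(τ + 4) ^ 2⌉₊ : ℝ) + 1)
    positivity
  · intro b b'
    exact holder hτ b b'
  · intro v hv
    exact ⟨Real.digits v 2, Real.ofDigits_digits (by norm_num) hv⟩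

end Pool.Agent.V11277.MF
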