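import Pool.Agent.V11277.MF.Weyl

/-!
# The quadratic Weyl sums `∑_{n ≤ N} e(x n²)`: the lower bound
-/

set_option autoImplicit false

namespace Pool.Agent.V11277.MF

open Finset Filter Asymptotics
open Pool.Agent.H807R2.Dav

lemma ee_std {q : ℕ} [NeZero q] (m : ℤ) : ee ((m : ℝ) / q) = ZMod.stdAddChar (m : ZMod q) := by
  rw [ZMod.stdAddChar_coe]
  unfold ee
  congr 1
  push_cast
  ring

/-- The quadratic Gauss sum. -/
noncomputable def G (a : ℤ) (q : ℕ) : ℂ := ∑ r ∈ range q, ee ((a : ℝ) / q * ((r : ℝ) + 1) ^ 2)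

lemma G_eq {a : ℤ} {q : ℕ} [NeZero q] :
    G a q = ∑ z : ZMod q, (ZMod.stdAddChar ((a : ZMod q) * z ^ 2) : ℂ) := by
  have h1 : ∑ z : ZMod q, (ZMod.stdAddChar ((a : ZMod q) * z ^ 2) : ℂ) =
      ∑ z : ZMod q, (ZMod.stdAddChar ((a : ZMod q) * (z + 1) ^ 2) : ℂ) :=
    (Fintype.sum_equiv (Equiv.addRight (1 : ZMod q)) _ _ fun z => rfl).symm
  rw [h1]
  unfold G
  refine sum_bij' (fun r _ => (r : ZMod q)) (fun z _ => z.val) ?_ ?_ ?_ ?_ ?_
  · intro r _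
    exact mem_univ _
  · intro z _
    exact mem_range.2 (ZMod.val_lt z)
  · intro r hr
    exact ZMod.val_cast_of_lt (mem_range.1 hr)
  · intro z _
    exact ZMod.natCast_zmod_val z
  · intro r _
    have h2 := ee_std (q := q) (a * ((r : ℤ) + 1) ^ 2)
    push_cast at h2
    rw [← h2]
    congr 1
    ring

/-- The modulus of the quadratic Gauss sum. -/
theorem norm_G_sq {a : ℤ} {q : ℕ} (hq : Odd q) (hcop : IsCoprime a (q : ℤ)) :
    ‖G a q‖ ^ 2 = q := by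
  have hq0 : q ≠ 0 := by
    rintro rfl
    simp at hq
  have : NeZero q := ⟨hq0⟩
  have hconj : ∀ z : ZMod q, (starRingEnd ℂ) (ZMod.stdAddChar z : ℂ) = ZMod.stdAddChar (-z) := by
    intro z
    rw [AddChar.map_neg_eq_inv, Complex.inv_eq_conj]
    rw [ZMod.stdAddChar_apply]
    exact Circle.norm_coe _
  have ha : IsUnit (a : ZMod q) := by
    obtain ⟨u, v, huv⟩ := hcop
    have h1 : ((u * a + v * (q : ℤ) : ℤ) : ZMod q) = 1 := by rw [huv]; simp
    push_cast at h1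
    rw [CharP.cast_eq_zero, mul_zero, add_zero] at h1
    exact IsUnit.of_mul_eq_one_right _ h1
  have h2 : IsUnit (2 : ZMod q) := by
    have := (ZMod.isUnit_iff_coprime 2 q).2 (Nat.coprime_two_left.2 hq)
    exact_mod_cast this
  have h3 : ((‖G a q‖ ^ 2 : ℝ) : ℂ) = ((q : ℝ) : ℂ) := by
    rw [G_eq]
    push_cast
    rw [← Complex.mul_conj', map_sum, sum_mul_sum]
    simp_rw [hconj, ← AddChar.map_add_eq_mul]
    rw [sum_comm]
    have h4 : ∀ y : ZMod q, ∑ z : ZMod q, (ZMod.stdAddChar ((a : ZMod q) * z ^ 2 +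
        -((a : ZMod q) * y ^ 2)) : ℂ) = ∑ h : ZMod q, (ZMod.stdAddChar (((a : ZMod q) * h ^ 2) +
          y * (2 * (a : ZMod q) * h)) : ℂ) := by
      intro y
      refine (Fintype.sum_equiv (Equiv.addRight y) _ _ fun z => ?_).symm
      congr 1
      simp only [Equiv.coe_addRight]
      ring
    simp_rw [h4]
    rw [sum_comm]
    simp_rw [AddChar.map_add_eq_mul, ← mul_sum]
    have h5 : ∀ h : ZMod q, ∑ y : ZMod q, (ZMod.stdAddChar (y * (2 * (a : ZMod q) * h)) : ℂ) =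
        if h = 0 then (q : ℂ) else 0 := by
      intro h
      rw [AddChar.sum_mulShift _ (ZMod.isPrimitive_stdAddChar q), ZMod.card]
      have h6 : (2 * (a : ZMod q) * h = 0) ↔ h = 0 := (h2.mul ha).mul_right_eq_zero
      simp only [h6]
      split_ifs <;> simp
    simp_rw [h5]
    simp
  exact_mod_cast h3

lemma norm_ee_sub_one (x : ℝ) : ‖ee x - 1‖ ≤ 2 * Real.pi * |x| := by
  rw [← norm_neg, neg_sub]
  exact dd_le x

lemma norm_ee_sub_ee (x y : ℝ) : ‖ee x - ee y‖ ≤ 2 * Real.pi * |x - y| := by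
  have h1 : ee x - ee y = ee y * (ee (x - y) - 1) := by
    rw [mul_sub, ← ee_add, mul_one]
    congr 2
    ring
  rw [h1, norm_mul, norm_ee, one_mul]
  exact norm_ee_sub_one _

lemma W_blocks (x : ℝ) (q M : ℕ) : W x (q * M) =
    ∑ m ∈ range M, ∑ r ∈ range q, ee (x * (((q * m + r : ℕ) : ℝ) + 1) ^ 2) := by
  induction M with
  | zero => simp [W]
  | succ M ih =>
    rw [sum_range_succ, ← ih]
    unfold W
    rw [Nat.mul_succ, sum_range_add]

/-- The lower bound near a rational number with an odd denominator. -/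
theorem lower {x β : ℝ} {a : ℤ} {q : ℕ} (hq : Odd q) (hcop : IsCoprime a (q : ℤ))
    (hx : x = a / q + β) {M : ℕ} (hβ : |β| * ((q : ℝ) * M) ^ 2 ≤ 1 / 64) :
    Real.sqrt q * M / 2 - q / 8 ≤ ‖W x (q * M)‖ := by
  have hq0 : q ≠ 0 := by
    rintro rfl
    simp at hq
  have hq0' : (0 : ℝ) < q := by positivity
  have hpi : Real.pi ≤ 4 := Real.pi_le_four
  have hπ := Real.pi_pos
  -- the first factor is periodic
  have h1 : ∀ m r : ℕ, ee (x * (((q * m + r : ℕ) : ℝ) + 1) ^ 2) =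
      ee ((a : ℝ) / q * ((r : ℝ) + 1) ^ 2) * ee (β * (((q * m + r : ℕ) : ℝ) + 1) ^ 2) := by
    intro m r
    have h2 : x * (((q * m + r : ℕ) : ℝ) + 1) ^ 2 = ((a : ℝ) / q * ((r : ℝ) + 1) ^ 2 +
        β * (((q * m + r : ℕ) : ℝ) + 1) ^ 2) +
          ((a * (q * m ^ 2 + 2 * m * (r + 1)) : ℤ) : ℝ) := by
      rw [hx]
      push_cast
      field_simp
      ring
    rw [h2, ee_add_int, ee_add]
  -- compare with the value at the beginning of the block
  have h2 : ‖W x (q * M) - G a q * ∑ m ∈ range M, ee (β * ((q : ℝ) * m) ^ 2)‖ ≤ q / 8 := by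
    rw [W_blocks, mul_sum, ← sum_sub_distrib]
    have h3 : ∀ m ∈ range M, ‖∑ r ∈ range q, ee (x * (((q * m + r : ℕ) : ℝ) + 1) ^ 2) -
        G a q * ee (β * ((q : ℝ) * m) ^ 2)‖ ≤
        2 * Real.pi * |β| * q ^ 3 * (((m : ℝ) + 1) ^ 2 - (m : ℝ) ^ 2) := by
      intro m _
      unfold G
      rw [sum_mul, ← sum_sub_distrib]
      have h4 : ∀ r ∈ range q, ‖ee (x * (((q * m + r : ℕ) : ℝ) + 1) ^ 2) -
          ee ((a : ℝ) / q * ((r : ℝ) + 1) ^ 2) * ee (β * ((q : ℝ) * m) ^ 2)‖ ≤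
          2 * Real.pi * |β| * q ^ 2 * (((m : ℝ) + 1) ^ 2 - (m : ℝ) ^ 2) := by
        intro r hr
        have hr' : (r : ℝ) + 1 ≤ q := by exact_mod_cast mem_range.1 hr
        have hr0 : (0 : ℝ) ≤ r := Nat.cast_nonneg r
        have hm0 : (0 : ℝ) ≤ m := Nat.cast_nonneg m
        rw [h1, ← mul_sub, norm_mul, norm_ee, one_mul]
        refine (norm_ee_sub_ee _ _).trans ?_
        rw [← mul_sub, abs_mul, mul_assoc (2 * Real.pi * |β|), ← mul_assoc]
        apply mul_le_mul_of_nonneg_left _ (by positivity)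
        push_cast
        have h5 : ((q : ℝ) * m + r + 1) ^ 2 - (q * m) ^ 2 =
            (r + 1) * (2 * (q * m) + (r + 1)) := by ring
        rw [h5, abs_of_nonneg (by positivity)]
        have h6 : (r + 1 : ℝ) * (2 * (q * m) + (r + 1)) ≤ q * (2 * (q * m) + q) := by
          apply mul_le_mul hr' (by linarith) (by positivity) hq0'.le
        nlinarith
      refine (norm_sum_le _ _).trans ((sum_le_sum h4).trans ?_)
      rw [sum_const, card_range, nsmul_eq_mul]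
      apply le_of_eq
      ring
    refine (norm_sum_le _ _).trans ((sum_le_sum h3).trans ?_)
    rw [← mul_sum, show ∑ i ∈ range M, (((i : ℝ) + 1) ^ 2 - (i : ℝ) ^ 2) = (M : ℝ) ^ 2 by
      have := sum_range_sub (fun i : ℕ => (i : ℝ) ^ 2) M
      push_cast at this
      rw [this]
      ring]
    have h4 : 2 * Real.pi * |β| * q ^ 3 * (M : ℝ) ^ 2 =
        2 * Real.pi * q * (|β| * ((q : ℝ) * M) ^ 2) := by ring
    rw [h4]
    calc 2 * Real.pi * q * (|β| * ((q : ℝ) * M) ^ 2) ≤ 2 * Real.pi * q * (1 / 64) :=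
          mul_le_mul_of_nonneg_left hβ (by positivity)
      _ ≤ 2 * 4 * q * (1 / 64) := by nlinarith
      _ = _ := by ring
  -- the outer sum
  have h3 : (M : ℝ) / 2 ≤ ‖∑ m ∈ range M, ee (β * ((q : ℝ) * m) ^ 2)‖ := by
    have h4 : ‖∑ m ∈ range M, (1 - ee (β * ((q : ℝ) * m) ^ 2))‖ ≤ M * (1 / 2) := by
      refine (norm_sum_le _ _).trans ?_
      have h5 : ∀ m ∈ range M, ‖1 - ee (β * ((q : ℝ) * m) ^ 2)‖ ≤ 1 / 2 := by
        intro m hm
        have hm' : (m : ℝ) ≤ M := by exact_mod_cast (mem_range.1 hm).le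
        have h6 := dd_le (β * ((q : ℝ) * m) ^ 2)
        unfold dd at h6
        refine h6.trans ?_
        rw [abs_mul, abs_of_nonneg (by positivity : (0 : ℝ) ≤ ((q : ℝ) * m) ^ 2)]
        have h7 : |β| * ((q : ℝ) * m) ^ 2 ≤ 1 / 64 := by
          refine le_trans ?_ hβ
          apply mul_le_mul_of_nonneg_left _ (abs_nonneg _)
          apply pow_le_pow_left₀ (by positivity)
          exact mul_le_mul_of_nonneg_left hm' hq0'.le
        have h8 : 0 ≤ |β| * ((q : ℝ) * m) ^ 2 := by positivity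
        nlinarith
      refine (sum_le_sum h5).trans ?_
      rw [sum_const, card_range, nsmul_eq_mul]
    rw [sum_sub_distrib, sum_const, card_range, nsmul_eq_mul, mul_one] at h4
    have h5 : ‖(M : ℂ)‖ ≤ ‖(M : ℂ) - ∑ m ∈ range M, ee (β * ((q : ℝ) * m) ^ 2)‖ +
        ‖∑ m ∈ range M, ee (β * ((q : ℝ) * m) ^ 2)‖ := by
      have := norm_add_le ((M : ℂ) - ∑ m ∈ range M, ee (β * ((q : ℝ) * m) ^ 2))
        (∑ m ∈ range M, ee (β * ((q : ℝ) * m) ^ 2))
      rwa [sub_add_cancel] at this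
    rw [Complex.norm_natCast] at h5
    linarith
  have hG : ‖G a q‖ = Real.sqrt q := by
    rw [← norm_G_sq hq hcop, Real.sqrt_sq (norm_nonneg _)]
  have h4 : ‖G a q * ∑ m ∈ range M, ee (β * ((q : ℝ) * m) ^ 2)‖ ≤ ‖W x (q * M)‖ +
      ‖W x (q * M) - G a q * ∑ m ∈ range M, ee (β * ((q : ℝ) * m) ^ 2)‖ := by
    have := norm_sub_le (W x (q * M)) (W x (q * M) - G a q * ∑ m ∈ range M,
      ee (β * ((q : ℝ) * m) ^ 2))
    rwa [sub_sub_cancel] at this
  rw [norm_mul, hG] at h4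
  have h5 : Real.sqrt q * (M / 2) ≤ Real.sqrt q * ‖∑ m ∈ range M, ee (β * ((q : ℝ) * m) ^ 2)‖ :=
    mul_le_mul_of_nonneg_left h3 (Real.sqrt_nonneg _)
  linarith

/-- The lower bound for numbers with the irrationality exponent at least `τ > 3`. -/
theorem not_isBigO {x τ : ℝ} (hτ : 3 < τ)
    (hx : ∀ B : ℕ, ∃ q : ℕ, B ≤ q ∧ Odd q ∧ ∃ a : ℤ, IsCoprime a (q : ℤ) ∧
      |x - a / q| ≤ ((q : ℝ) ^ τ)⁻¹) {s : ℝ} (hs : s < 1 - 1 / τ) :
    ¬ (fun N : ℕ => W x N) =O[atTop] (fun N : ℕ => (N : ℝ) ^ s) := by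
  intro hO
  have hτ0 : 0 < τ := by linarith
  -- we may increase `s`
  obtain ⟨t, ht⟩ : ∃ t : ℝ, t = max s 0 := ⟨_, rfl⟩
  have ht0 : 0 ≤ t := by rw [ht]; exact le_max_right _ _
  have hα0 : 0 < 1 - 1 / τ := by
    have : 1 / τ ≤ 1 / 3 := one_div_le_one_div_of_le (by norm_num) hτ.le
    linarith
  have ht1 : t < 1 - 1 / τ := by rw [ht]; exact max_lt hs hα0
  obtain ⟨C, hC0, hC⟩ := hO.exists_pos
  rw [IsBigOWith, eventually_atTop] at hC
  obtain ⟨N₀, hN₀⟩ := hC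
  -- the conditions for large `q`
  have hγ : 0 < (τ - 1) / 2 - τ * t / 2 := by
    have h1 : τ * t < τ * (1 - 1 / τ) := mul_lt_mul_of_pos_left ht1 hτ0
    have h2 : τ * (1 - 1 / τ) = τ - 1 := by field_simp
    linarith
  have e1 : ∀ᶠ q : ℕ in atTop, 64 * C < (q : ℝ) ^ ((τ - 1) / 2 - τ * t / 2) :=
    ((tendsto_rpow_atTop hγ).comp tendsto_natCast_atTop_atTop).eventually_gt_atTop _
  have e2 : ∀ᶠ q : ℕ in atTop, 8 ≤ (q : ℝ) ^ ((τ - 3) / 2) :=
    ((tendsto_rpow_atTop (by linarith)).comp tendsto_natCast_atTop_atTop).eventually_ge_atTop _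
  have e3 : ∀ᶠ q : ℕ in atTop, 16 ≤ (q : ℝ) ^ (τ / 2 - 1) :=
    ((tendsto_rpow_atTop (by linarith)).comp tendsto_natCast_atTop_atTop).eventually_ge_atTop _
  obtain ⟨B, hB⟩ := eventually_atTop.1 (e1.and (e2.and (e3.and (eventually_ge_atTop (N₀ + 1)))))
  obtain ⟨q, hqB, hqodd, a, hcop, hxa⟩ := hx B
  obtain ⟨hq1, hq2, hq3, hq4⟩ := hB q hqB
  have hq0 : 0 < q := by omega
  have hq0' : (0 : ℝ) < q := by exact_mod_cast hq0
  have hq1' : (1 : ℝ) ≤ q := by exact_mod_cast hq0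
  obtain ⟨M, hM⟩ : ∃ M : ℕ, M = ⌊(q : ℝ) ^ (τ / 2 - 1) / 8⌋₊ := ⟨_, rfl⟩
  have hM1 : (M : ℝ) ≤ (q : ℝ) ^ (τ / 2 - 1) / 8 := by
    rw [hM]
    exact Nat.floor_le (by positivity)
  have hM2 : (q : ℝ) ^ (τ / 2 - 1) / 16 ≤ M := by
    have := (Nat.lt_floor_add_one ((q : ℝ) ^ (τ / 2 - 1) / 8)).le
    rw [← hM] at this
    linarith
  have hM3 : (1 : ℝ) ≤ M := by linarith
  have hM4 : 1 ≤ M := by exact_mod_cast hM3
  have hqM : (q : ℝ) * M ≤ (q : ℝ) ^ (τ / 2) / 8 := by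
    have h1 : (q : ℝ) * (q : ℝ) ^ (τ / 2 - 1) = (q : ℝ) ^ (τ / 2) := by
      rw [mul_comm, ← Real.rpow_add_one hq0'.ne']
      congr 1
      ring
    rw [← h1]
    calc (q : ℝ) * M ≤ q * ((q : ℝ) ^ (τ / 2 - 1) / 8) := mul_le_mul_of_nonneg_left hM1 hq0'.le
      _ = _ := by ring
  have hβ : |x - a / q| * ((q : ℝ) * M) ^ 2 ≤ 1 / 64 := by
    calc |x - a / q| * ((q : ℝ) * M) ^ 2 ≤ ((q : ℝ) ^ τ)⁻¹ * ((q : ℝ) ^ (τ / 2) / 8) ^ 2 :=
          mul_le_mul hxa (pow_le_pow_left₀ (by positivity) hqM 2) (by positivity) (by positivity)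
      _ = ((q : ℝ) ^ τ)⁻¹ * (((q : ℝ) ^ (τ / 2)) ^ 2 / 64) := by ring
      _ = ((q : ℝ) ^ τ)⁻¹ * ((q : ℝ) ^ τ / 64) := by
          congr 2
          rw [← Real.rpow_natCast, ← Real.rpow_mul hq0'.le]
          congr 1
          push_cast
          ring
      _ = 1 / 64 := by
          have : (q : ℝ) ^ τ ≠ 0 := (Real.rpow_pos_of_pos hq0' τ).ne'
          field_simp
  have h1 := lower hqodd hcop (x := x) (β := x - a / q) (by ring) hβ
  have h2 := hN₀ (q * M) (by nlinarith)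
  rw [Real.norm_of_nonneg (by positivity)] at h2
  -- the upper bound for the assumed order
  have h3 : (((q * M : ℕ) : ℝ)) ^ s ≤ (q : ℝ) ^ (τ * t / 2) := by
    have h4 : (1 : ℝ) ≤ ((q * M : ℕ) : ℝ) := by
      have : 1 ≤ q * M := Nat.mul_pos hq0 hM4
      exact_mod_cast this
    have h5 : (((q * M : ℕ) : ℝ)) ^ s ≤ (((q * M : ℕ) : ℝ)) ^ t :=
      Real.rpow_le_rpow_of_exponent_le h4 (by rw [ht]; exact le_max_left _ _)
    have h6 : (((q * M : ℕ) : ℝ)) ^ t ≤ ((q : ℝ) ^ (τ / 2)) ^ t := by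
      apply Real.rpow_le_rpow (by positivity) _ ht0
      push_cast
      have : 0 < (q : ℝ) ^ (τ / 2) := by positivity
      linarith
    rw [← Real.rpow_mul hq0'.le] at h6
    refine h5.trans (h6.trans (le_of_eq ?_))
    congr 1
    ring
  have h4 : (q : ℝ) ^ ((τ - 1) / 2) / 64 ≤ Real.sqrt q * M / 2 - q / 8 := by
    have h5 : Real.sqrt q * ((q : ℝ) ^ (τ / 2 - 1) / 16) ≤ Real.sqrt q * M :=
      mul_le_mul_of_nonneg_left hM2 (Real.sqrt_nonneg _)
    have h6 : Real.sqrt q * (q : ℝ) ^ (τ / 2 - 1) = (q : ℝ) ^ ((τ - 1) / 2) := by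
      rw [Real.sqrt_eq_rpow, ← Real.rpow_add hq0']
      congr 1
      ring
    have h7 : (q : ℝ) * (q : ℝ) ^ ((τ - 3) / 2) = (q : ℝ) ^ ((τ - 1) / 2) := by
      rw [mul_comm, ← Real.rpow_add_one hq0'.ne']
      congr 1
      ring
    have h8 : (q : ℝ) * 8 ≤ (q : ℝ) * (q : ℝ) ^ ((τ - 3) / 2) :=
      mul_le_mul_of_nonneg_left hq2 hq0'.le
    nlinarith
  have h5 : (q : ℝ) ^ ((τ - 1) / 2) ≤ 64 * C * (q : ℝ) ^ (τ * t / 2) := by
    have h6 : C * (((q * M : ℕ) : ℝ)) ^ s ≤ C * (q : ℝ) ^ (τ * t / 2) :=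
      mul_le_mul_of_nonneg_left h3 hC0.le
    linarith
  have h6 : (q : ℝ) ^ ((τ - 1) / 2) =
      (q : ℝ) ^ ((τ - 1) / 2 - τ * t / 2) * (q : ℝ) ^ (τ * t / 2) := by
    rw [← Real.rpow_add hq0']
    congr 1
    ring
  rw [h6] at h5
  have h7 : 0 < (q : ℝ) ^ (τ * t / 2) := by positivity
  have h8 := le_of_mul_le_mul_right h5 h7
  linarith

end Pool.Agent.V11277.MF
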