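import Mathlib
import Pool.Agent.Y766.WY
import Pool.Agent.H807R2.Dav1

/-!
# The quadratic Weyl sums `∑_{n ≤ N} e(x n²)`: the upper bound
-/

set_option autoImplicit false

namespace Pool.Agent.V11277.MF

open Finset Filter Asymptotics
open Pool.Agent.H807R2.Dav

/-- The quadratic Weyl sum `∑_{n=1}^N e(x n²)`. -/
noncomputable def W (x : ℝ) (N : ℕ) : ℂ := ∑ n ∈ range N, ee (x * ((n : ℝ) + 1) ^ 2)

lemma ee_conj (x : ℝ) : (starRingEnd ℂ) (ee x) = ee (-x) := by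
  unfold ee
  rw [← Complex.exp_conj]
  congr 1
  simp only [map_mul, Complex.conj_I, Complex.conj_ofReal, map_ofNat]
  push_cast
  ring

lemma W_sq_le (x : ℝ) (N : ℕ) :
    ‖W x N‖ ^ 2 ≤ 2 * ∑ j ∈ range (2 * N), KK N (0 + j * x) := by
  have h1 := Pool.Agent.Y766.sq_out (fun n => ee (x * ((n : ℝ) + 1) ^ 2)) N
  refine h1.trans ?_
  apply mul_le_mul_of_nonneg_left _ (by norm_num)
  have h2 : ∀ h ∈ range N, ‖∑ n ∈ range (N - h), ee (x * (((n + h : ℕ) : ℝ) + 1) ^ 2) *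
      (starRingEnd ℂ) (ee (x * ((n : ℝ) + 1) ^ 2))‖ ≤ KK N (((2 * h : ℕ) : ℝ) * x) := by
    intro h hh
    have h3 : ∀ n ∈ range (N - h), ee (x * (((n + h : ℕ) : ℝ) + 1) ^ 2) *
        (starRingEnd ℂ) (ee (x * ((n : ℝ) + 1) ^ 2)) =
        ee (x * (h ^ 2 + 2 * h)) * ee (n * (((2 * h : ℕ) : ℝ) * x)) := by
      intro n _
      rw [ee_conj, ← ee_add, ← ee_add]
      congr 1
      push_cast
      ring
    rw [sum_congr rfl h3, ← mul_sum, norm_mul, norm_ee, one_mul, range_eq_Ico]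
    refine geo_bound 0 (N - h) (Nat.zero_le _) (M := (N : ℝ)) ?_ (((2 * h : ℕ) : ℝ) * x)
    simp
  calc ∑ h ∈ range N, ‖∑ n ∈ range (N - h), ee (x * (((n + h : ℕ) : ℝ) + 1) ^ 2) *
      (starRingEnd ℂ) (ee (x * ((n : ℝ) + 1) ^ 2))‖
      ≤ ∑ h ∈ range N, KK N (((2 * h : ℕ) : ℝ) * x) := sum_le_sum h2
    _ = ∑ j ∈ (range N).image (fun h : ℕ => 2 * h), KK N (0 + (j : ℝ) * x) := by
        rw [sum_image (by intro x _ y _ h; simp only at h; omega)]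
        refine sum_congr rfl fun h _ => ?_
        rw [zero_add]
    _ ≤ ∑ j ∈ range (2 * N), KK N (0 + j * x) := by
        refine sum_le_sum_of_subset_of_nonneg (fun j hj => ?_) fun j _ _ =>
          KK_nonneg (Nat.cast_nonneg _) _
        obtain ⟨v, hv, rfl⟩ := mem_image.1 hj
        rw [mem_range] at hv ⊢
        omega

lemma W_bound {x : ℝ} {q : ℕ} (hq : 1 ≤ q) {a : ℤ} (hcop : IsCoprime a (q : ℤ))
    (hx : |x - a / q| ≤ 1 / (q : ℝ) ^ 2) (N : ℕ) :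
    ‖W x N‖ ^ 2 ≤ 2 * ((((2 * N : ℕ) : ℝ) / q + 1) * (39 * N + 3 * q * (1 + Real.log q))) :=
  (W_sq_le x N).trans (mul_le_mul_of_nonneg_left
    (vino hq hcop hx (Nat.cast_nonneg N) 0 (2 * N)) (by norm_num))

/-- The upper bound for numbers with the irrationality exponent at most `τ`. -/
theorem upper {x τ c : ℝ} (hτ : 2 ≤ τ) (hc : 0 < c)
    (hx : ∀ r : ℚ, c * ((r.den : ℝ) ^ τ)⁻¹ ≤ |x - r|) {s : ℝ} (hs : 1 - 1 / τ < s) :
    (fun N : ℕ => W x N) =O[atTop] (fun N : ℕ => (N : ℝ) ^ s) := by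
  have hτ0 : 0 < τ := by linarith
  have hα0 : 0 < 1 - 1 / τ := by
    have : 1 / τ ≤ 1 / 2 := one_div_le_one_div_of_le (by norm_num) hτ
    linarith
  obtain ⟨δ, hδ⟩ : ∃ δ : ℝ, δ = s / (1 - 1 / τ) - 1 := ⟨_, rfl⟩
  have hδ0 : 0 < δ := by
    rw [hδ, sub_pos, one_lt_div hα0]
    exact hs
  obtain ⟨c₁, hc₁⟩ : ∃ c₁ : ℝ, c₁ = c ^ (1 / (τ - 1)) := ⟨_, rfl⟩
  have hc₁0 : 0 < c₁ := by rw [hc₁]; positivity
  obtain ⟨B, hB⟩ : ∃ B : ℝ, B = 2 * ((78 / c₁ + 51) * (1 + 2 ^ δ / δ)) := ⟨_, rfl⟩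
  have hB0 : 0 < B := by rw [hB]; positivity
  refine IsBigO.of_bound (Real.sqrt B) ?_
  filter_upwards [eventually_ge_atTop 1] with N hN
  have hN1 : (1 : ℝ) ≤ N := by exact_mod_cast hN
  have hN0 : (0 : ℝ) < N := by linarith
  obtain ⟨E, hE⟩ : ∃ E : ℝ, E = (N : ℝ) ^ (2 - 2 / τ) := ⟨_, rfl⟩
  have h2τ : 2 / τ ≤ 1 := by rw [div_le_one hτ0]; exact hτ
  have hEN : (N : ℝ) ≤ E := by
    rw [hE]
    calc (N : ℝ) = (N : ℝ) ^ (1 : ℝ) := (Real.rpow_one _).symm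
      _ ≤ _ := Real.rpow_le_rpow_of_exponent_le hN1 (by linarith)
  have hE1 : 1 ≤ E := hN1.trans hEN
  have hE0 : 0 < E := by linarith
  obtain ⟨Q, hQ⟩ : ∃ Q : ℕ, Q = ⌈E⌉₊ := ⟨_, rfl⟩
  have hQ1 : 0 < Q := by rw [hQ]; exact Nat.ceil_pos.2 hE0
  have hQE : E ≤ Q := by rw [hQ]; exact Nat.le_ceil E
  have hQE' : (Q : ℝ) ≤ 2 * E := by
    have := (Nat.ceil_lt_add_one hE0.le).le
    rw [← hQ] at this
    linarith
  obtain ⟨r, hr1, hr2⟩ := Real.exists_rat_abs_sub_le_and_den_le x hQ1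
  obtain ⟨q, hq⟩ : ∃ q : ℕ, q = r.den := ⟨_, rfl⟩
  have hq1 : 1 ≤ q := by rw [hq]; exact r.pos
  have hq0 : (0 : ℝ) < q := by exact_mod_cast hq1
  rw [← hq] at hr1 hr2
  have hqQ : (q : ℝ) ≤ Q := by exact_mod_cast hr2
  have hcop : IsCoprime r.num (q : ℤ) := by
    rw [hq]
    exact Rat.isCoprime_num_den r
  have hrq : (r : ℝ) = (r.num : ℝ) / q := by
    rw [hq]
    exact (Rat.cast_def r)
  have hxq : |x - (r.num : ℝ) / q| ≤ 1 / (q : ℝ) ^ 2 := by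
    rw [← hrq]
    refine hr1.trans ?_
    apply one_div_le_one_div_of_le (by positivity)
    nlinarith
  -- the lower bound of `q`
  have hqlow : c₁ * (N : ℝ) ^ (2 / τ) ≤ q := by
    have h1 := (hx r).trans hr1
    rw [← hq] at h1
    have h2 : c * E ≤ (q : ℝ) ^ (τ - 1) := by
      rw [Real.rpow_sub_one hq0.ne', le_div_iff₀ hq0]
      have h3 : 0 < (q : ℝ) ^ τ := by positivity
      rw [← div_eq_mul_inv, div_le_div_iff₀ h3 (by positivity)] at h1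
      have h4 : c * E ≤ c * (Q + 1) := mul_le_mul_of_nonneg_left (by linarith) hc.le
      nlinarith
    have h3 : (c * E) ^ (1 / (τ - 1)) ≤ ((q : ℝ) ^ (τ - 1)) ^ (1 / (τ - 1)) :=
      Real.rpow_le_rpow (by positivity) h2 (by
        apply div_nonneg <;> linarith)
    rw [← Real.rpow_mul hq0.le, mul_one_div_cancel (by linarith), Real.rpow_one,
      Real.mul_rpow hc.le hE0.le, ← hc₁, hE, ← Real.rpow_mul hN0.le] at h3
    have h4 : (2 - 2 / τ) * (1 / (τ - 1)) = 2 / τ := by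
      have : τ - 1 ≠ 0 := by linarith
      field_simp
    rwa [h4] at h3
  have hNq : (N : ℝ) ^ 2 / q ≤ E / c₁ := by
    rw [div_le_div_iff₀ hq0 hc₁0]
    have h1 : (N : ℝ) ^ 2 = E * (N : ℝ) ^ (2 / τ) := by
      rw [hE, ← Real.rpow_add hN0]
      have : (2 : ℝ) - 2 / τ + 2 / τ = ((2 : ℕ) : ℝ) := by push_cast; ring
      rw [this, Real.rpow_natCast]
    rw [h1]
    have h2 : E * (c₁ * (N : ℝ) ^ (2 / τ)) ≤ E * q := mul_le_mul_of_nonneg_left hqlow hE0.le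
    linarith
  have hL0 : 0 ≤ Real.log q := Real.log_nonneg (by exact_mod_cast hq1)
  have hL : 1 + Real.log q ≤ (1 + 2 ^ δ / δ) * E ^ δ := by
    have h1 : Real.log q ≤ (q : ℝ) ^ δ / δ := Real.log_le_rpow_div hq0.le hδ0
    have h2 : (q : ℝ) ^ δ ≤ (2 * E) ^ δ :=
      Real.rpow_le_rpow hq0.le (hqQ.trans hQE') hδ0.le
    rw [Real.mul_rpow (by norm_num) hE0.le] at h2
    have h3 : (1 : ℝ) ≤ E ^ δ := Real.one_le_rpow hE1 hδ0.le
    have h4 : (q : ℝ) ^ δ / δ ≤ 2 ^ δ * E ^ δ / δ := div_le_div_of_nonneg_right h2 hδ0.le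
    calc 1 + Real.log q ≤ E ^ δ + 2 ^ δ * E ^ δ / δ := by linarith
      _ = _ := by ring
  have hmain : ‖W x N‖ ^ 2 ≤ B * (E ^ δ * E) := by
    refine (W_bound hq1 hcop hxq N).trans ?_
    have h1 : (((2 * N : ℕ) : ℝ) / q + 1) * (39 * N + 3 * q * (1 + Real.log q)) =
        78 * ((N : ℝ) ^ 2 / q) + 6 * N * (1 + Real.log q) + 39 * N +
          3 * q * (1 + Real.log q) := by
      push_cast
      field_simp
      ring
    rw [h1]
    have h2 : 78 * ((N : ℝ) ^ 2 / q) + 6 * N * (1 + Real.log q) + 39 * N +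
          3 * q * (1 + Real.log q) ≤ ((78 / c₁ + 51) * E) * (1 + Real.log q) := by
      have h3 : (q : ℝ) ≤ 2 * E := hqQ.trans hQE'
      have h4 : 78 * ((N : ℝ) ^ 2 / q) ≤ 78 / c₁ * E * (1 + Real.log q) := by
        have h5 : 78 * ((N : ℝ) ^ 2 / q) ≤ 78 / c₁ * E := by
          calc 78 * ((N : ℝ) ^ 2 / q) ≤ 78 * (E / c₁) := by linarith
            _ = _ := by ring
        have h6 : 0 ≤ 78 / c₁ * E * Real.log q := by positivity
        nlinarith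
      have h5 : (N : ℝ) * (1 + Real.log q) ≤ E * (1 + Real.log q) :=
        mul_le_mul_of_nonneg_right hEN (by linarith)
      have h6 : (q : ℝ) * (1 + Real.log q) ≤ 2 * E * (1 + Real.log q) :=
        mul_le_mul_of_nonneg_right h3 (by linarith)
      have h7 : (N : ℝ) ≤ E * (1 + Real.log q) := by
        have : 0 ≤ E * Real.log q := by positivity
        nlinarith
      nlinarith
    have h3 : ((78 / c₁ + 51) * E) * (1 + Real.log q) ≤
        ((78 / c₁ + 51) * E) * ((1 + 2 ^ δ / δ) * E ^ δ) :=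
      mul_le_mul_of_nonneg_left hL (by positivity)
    calc 2 * (78 * ((N : ℝ) ^ 2 / q) + 6 * N * (1 + Real.log q) + 39 * N +
          3 * q * (1 + Real.log q)) ≤ 2 * (((78 / c₁ + 51) * E) * ((1 + 2 ^ δ / δ) * E ^ δ)) := by
          linarith
      _ = _ := by rw [hB]; ring
  have hEE : E ^ δ * E = ((N : ℝ) ^ s) ^ 2 := by
    have h1 : E ^ δ * E = E ^ (δ + 1) := by rw [Real.rpow_add_one hE0.ne']
    rw [h1, hE, ← Real.rpow_mul hN0.le, ← Real.rpow_natCast, ← Real.rpow_mul hN0.le]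
    congr 1
    have h3 : (2 : ℝ) - 2 / τ = (1 - 1 / τ) * 2 := by ring
    have h4 : δ + 1 = s / (1 - 1 / τ) := by rw [hδ]; ring
    have h5 : (1 - 1 / τ) * 2 * (s / (1 - 1 / τ)) = s * 2 := by
      rw [mul_right_comm, mul_div_cancel₀ _ hα0.ne']
    rw [h3, h4, h5]
    norm_num
  rw [hEE] at hmain
  rw [Real.norm_of_nonneg (by positivity)]
  apply le_of_sq_le_sq _ (by positivity)
  rw [mul_pow, Real.sq_sqrt hB0.le]
  exact hmain

end Pool.Agent.V11277.MF
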